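import Pool.Agent.helper45.PV.SpecG

/-!
# Project pv (MP_376aaf_an), row MK0: `K₀` of the mapping cone
-/

set_option autoImplicit false

open scoped Matrix Topology

namespace Pool.Agent.PV

open Pool.Agent.CZ

private lemma MK0_comp {C D : Type} [NormedRing C] [NormedAlgebra ℂ C] [NormedRing D] [NormedAlgebra ℂ D]
    (φ : C →ₐ[ℂ] D) (χ : D →ₐ[ℂ] ℂ) :
    (eM φ χ).toRingHom.comp (jm φ χ).toRingHom = (eL χ).toRingHom := by
  refine RingHom.ext fun h => ?_
  show χ (pM φ 0 (jm φ χ h)) = χ (pL D 0 h)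
  rw [pM_jm]
  have h0 : (((0 : unitInterval) : ℝ) : UnitAddCircle) = 0 := by
    rw [Set.Icc.coe_zero]
    rfl
  rw [h0]

theorem MK0 (hFUN : FUN_stmt) (hHOL : HOL_stmt) (hLC1 : LC1_stmt) (hONT : ONT_stmt)
    (hKR1 : KR1_stmt) (hKR2 : KR2_stmt) : MK0_stmt := by
  intro C D _ _ _ _ _ _ φ χ hφ hχ hC
  obtain ⟨de, hde, -, hinj0, hsur0⟩ := hHOL D
  obtain ⟨hinj, hsur⟩ := hLC1 D χ hχ de hinj0 hsur0
  choose S hS1 hS2 using hsur
  have hcomp : ∀ x : K0 (L1 D), k0map (eM φ χ).toRingHom (k0map (jm φ χ).toRingHom x) =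
      k0map (eL χ).toRingHom x := by
    intro x
    rw [← hFUN.2.1, MK0_comp]
  have huniq : ∀ x x' : K0 (L1 D), k0map (eL χ).toRingHom x = 0 → k0map (eL χ).toRingHom x' = 0 →
      de (k0map (vL D).toRingHom x) = de (k0map (vL D).toRingHom x') → x = x' := by
    intro x x' h1 h2 h3
    refine sub_eq_zero.1 (hinj (x - x') ?_ ?_)
    · rw [map_sub, h1, h2, sub_zero]
    · rw [map_sub, map_sub, h3, sub_self]
  have hadd : ∀ y y', S (y + y') = S y + S y' := by
    intro y y'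
    refine huniq _ _ (hS1 _) ?_ ?_
    · rw [map_add, hS1, hS1, add_zero]
    · rw [map_add, map_add, hS2, hS2, hS2]
  let T : K1 D →+ K0 (MC φ) := AddMonoidHom.mk' (fun y => k0map (jm φ χ).toRingHom (S y))
    (fun y y' => by rw [hadd, map_add])
  refine ⟨T, ?_, ?_⟩
  · ext z
    rw [AddMonoidHom.mem_range, AddMonoidHom.mem_ker]
    constructor
    · rintro ⟨y, rfl⟩
      show k0map (eM φ χ).toRingHom (k0map (jm φ χ).toRingHom (S y)) = 0
      rw [hcomp, hS1]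
    · intro hz
      obtain ⟨x, rfl⟩ := hONT C D φ χ hφ hχ hC z
      rw [hcomp] at hz
      refine ⟨de (k0map (vL D).toRingHom x), ?_⟩
      show k0map (jm φ χ).toRingHom (S (de (k0map (vL D).toRingHom x))) = _
      rw [huniq _ x (hS1 _) hz (hS2 _)]
  · ext y'
    rw [AddMonoidHom.mem_range, AddMonoidHom.mem_ker]
    constructor
    · intro hy
      obtain ⟨y, hy2⟩ := hKR2 C D φ χ hφ hχ de hde (S y') (hS1 _) hy
      rw [hS2] at hy2
      exact ⟨y, hy2.symm⟩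
    · rintro ⟨y, rfl⟩
      obtain ⟨x, hx1, hx2, hx3⟩ := hKR1 C D φ χ hφ hχ de hde y
      show k0map (jm φ χ).toRingHom (S (k1map φ.toRingHom hφ y)) = 0
      rw [huniq _ x (hS1 _) hx1 (by rw [hS2, hx3]), hx2]

end Pool.Agent.PV
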