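import Pool.Agent.helper72.PV.SpecH

/-!
# Project pv (MP_376aaf_an), block H, row SGK: a dense homomorphism into `Aff(K)` gives a simple ordered group
-/

set_option autoImplicit false

open Finset

namespace Pool.Agent.PVH

open Pool.Agent.PV Pool.Agent.CZ

section SGK

variable {E : Type} [AddCommGroup E] [Module ℝ E] [TopologicalSpace E] {K : Set E}

private lemma SGK_add {a b : C(K, ℝ)} (ha : IsAff a) (hb : IsAff b) : IsAff (a + b) :=
  ⟨fun x y z s t hs ht hst hz => by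
    have h1 := ha.aff x y z s t hs ht hst hz
    have h2 := hb.aff x y z s t hs ht hst hz
    rw [ContinuousMap.add_apply, ContinuousMap.add_apply, ContinuousMap.add_apply, h1, h2]
    ring⟩

private lemma SGK_sub {a b : C(K, ℝ)} (ha : IsAff a) (hb : IsAff b) : IsAff (a - b) :=
  ⟨fun x y z s t hs ht hst hz => by
    have h1 := ha.aff x y z s t hs ht hst hz
    have h2 := hb.aff x y z s t hs ht hst hz
    rw [ContinuousMap.sub_apply, ContinuousMap.sub_apply, ContinuousMap.sub_apply, h1, h2]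
    ring⟩

private lemma SGK_smul {a : C(K, ℝ)} (c : ℝ) (ha : IsAff a) : IsAff (c • a) :=
  ⟨fun x y z s t hs ht hst hz => by
    have h1 := ha.aff x y z s t hs ht hst hz
    rw [ContinuousMap.smul_apply, ContinuousMap.smul_apply, ContinuousMap.smul_apply, h1,
      smul_eq_mul, smul_eq_mul, smul_eq_mul]
    ring⟩

private lemma SGK_const (c : ℝ) : IsAff (ContinuousMap.const K c) :=
  ⟨fun x y z s t hs ht hst hz => by
    show c = s * c + t * c
    rw [← add_mul, hst, one_mul]⟩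

omit [AddCommGroup E] [Module ℝ E] in
private lemma SGK_min [CompactSpace K] [Nonempty K] (a : C(K, ℝ)) (h : ∀ t, 0 < a t) :
    ∃ δ : ℝ, 0 < δ ∧ ∀ t, δ ≤ a t := by
  obtain ⟨t₀, -, ht⟩ := isCompact_univ.exists_isMinOn Set.univ_nonempty a.continuous.continuousOn
  exact ⟨a t₀, h t₀, fun t => ht (Set.mem_univ t)⟩

private theorem SGK_core (hK : IsSimplex K) (H : Type) [AddCommGroup H] (ρ : H →+ C(K, ℝ)) (g : H)
    (hKD : KD K ρ g) (htf : ∀ (n : ℕ) (x : H), 1 ≤ n → n • x = 0 → x = 0) : SOG (KP K ρ) g := by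
  have : CompactSpace K := isCompact_iff_compactSpace.1 hKD.compact
  have : Nonempty K := hKD.nonempty.to_subtype
  have hsub : ∀ (x y : H) (t : K), ρ (x - y) t = ρ x t - ρ y t := by
    intro x y t
    rw [map_sub]
    rfl
  have hadd : ∀ (x y : H) (t : K), ρ (x + y) t = ρ x t + ρ y t := by
    intro x y t
    rw [map_add]
    rfl
  have hns : ∀ (n : ℕ) (x : H) (t : K), ρ (n • x) t = n * ρ x t := by
    intro n x t
    rw [map_nsmul, ContinuousMap.nsmul_apply, nsmul_eq_mul]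
  refine ⟨?_, ?_, ?_, htf, ?_, ?_, ?_, ?_⟩
  · intro x y hx hy t
    rw [hadd]
    exact add_pos (hx t) (hy t)
  · intro h
    obtain ⟨t⟩ := ‹Nonempty K›
    have h1 := h t
    rw [map_zero] at h1
    exact lt_irrefl _ h1
  · intro n x hn h t
    have h1 := h t
    rw [hns] at h1
    have hn' : (0 : ℝ) < n := by exact_mod_cast hn
    exact (pos_iff_pos_of_mul_pos h1).1 hn'
  · intro t
    rw [hKD.one]
    exact one_pos
  · intro x y hx
    obtain ⟨δ, hδ, hδ2⟩ := SGK_min (ρ x) hx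
    obtain ⟨n, hn⟩ := exists_nat_gt (‖ρ y‖ / δ)
    refine ⟨n + 1, Nat.le_add_left 1 n, fun t => ?_⟩
    rw [hsub, hns]
    have h1 : ρ y t ≤ ‖ρ y‖ := (le_abs_self _).trans ((ρ y).norm_coe_le_norm t)
    have h2 : ‖ρ y‖ < n * δ := (div_lt_iff₀ hδ).1 hn
    have h3 : ((n + 1 : ℕ) : ℝ) * δ ≤ ((n + 1 : ℕ) : ℝ) * ρ x t :=
      mul_le_mul_of_nonneg_left (hδ2 t) (Nat.cast_nonneg _)
    push_cast at h3 ⊢
    linarith
  · intro a₁ a₂ b₁ b₂ h11 h12 h21 h22
    obtain ⟨d1, hd1, hd1'⟩ := SGK_min (ρ (b₁ - a₁)) h11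
    obtain ⟨d2, hd2, hd2'⟩ := SGK_min (ρ (b₁ - a₂)) h12
    obtain ⟨d3, hd3, hd3'⟩ := SGK_min (ρ (b₂ - a₁)) h21
    obtain ⟨d4, hd4, hd4'⟩ := SGK_min (ρ (b₂ - a₂)) h22
    obtain ⟨δ, hδ, e1, e2, e3, e4⟩ : ∃ δ : ℝ, 0 < δ ∧ 3 * δ ≤ d1 ∧ 3 * δ ≤ d2 ∧ 3 * δ ≤ d3 ∧
        3 * δ ≤ d4 := by
      refine ⟨min (min d1 d2) (min d3 d4) / 3, ?_, ?_, ?_, ?_, ?_⟩
      · have : 0 < min (min d1 d2) (min d3 d4) := lt_min (lt_min hd1 hd2) (lt_min hd3 hd4)
        positivity
      · have : min (min d1 d2) (min d3 d4) ≤ d1 := (min_le_left _ _).trans (min_le_left _ _)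
        linarith
      · have : min (min d1 d2) (min d3 d4) ≤ d2 := (min_le_left _ _).trans (min_le_right _ _)
        linarith
      · have : min (min d1 d2) (min d3 d4) ≤ d3 := (min_le_right _ _).trans (min_le_left _ _)
        linarith
      · have : min (min d1 d2) (min d3 d4) ≤ d4 := (min_le_right _ _).trans (min_le_right _ _)
        linarith
    have f1 : ∀ t, 3 * δ ≤ ρ b₁ t - ρ a₁ t := fun t => by rw [← hsub]; exact e1.trans (hd1' t)
    have f2 : ∀ t, 3 * δ ≤ ρ b₁ t - ρ a₂ t := fun t => by rw [← hsub]; exact e2.trans (hd2' t)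
    have f3 : ∀ t, 3 * δ ≤ ρ b₂ t - ρ a₁ t := fun t => by rw [← hsub]; exact e3.trans (hd3' t)
    have f4 : ∀ t, 3 * δ ≤ ρ b₂ t - ρ a₂ t := fun t => by rw [← hsub]; exact e4.trans (hd4' t)
    obtain ⟨c', hc', g1, g2, g3, g4⟩ := hK (ρ a₁ + ContinuousMap.const K δ)
      (ρ a₂ + ContinuousMap.const K δ) (ρ b₁ - ContinuousMap.const K δ)
      (ρ b₂ - ContinuousMap.const K δ) (SGK_add (hKD.aff _) (SGK_const _))
      (SGK_add (hKD.aff _) (SGK_const _)) (SGK_sub (hKD.aff _) (SGK_const _))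
      (SGK_sub (hKD.aff _) (SGK_const _))
      (fun t => by
        show ρ a₁ t + δ ≤ ρ b₁ t - δ
        have := f1 t
        linarith)
      (fun t => by
        show ρ a₁ t + δ ≤ ρ b₂ t - δ
        have := f3 t
        linarith)
      (fun t => by
        show ρ a₂ t + δ ≤ ρ b₁ t - δ
        have := f2 t
        linarith)
      (fun t => by
        show ρ a₂ t + δ ≤ ρ b₂ t - δ
        have := f4 t
        linarith)
    obtain ⟨c, hc⟩ := hKD.dense c' hc' (δ / 2) (by positivity)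
    refine ⟨c, fun t => ?_, fun t => ?_, fun t => ?_, fun t => ?_⟩
    · rw [hsub]
      have h1 := (abs_lt.1 (hc t)).1
      have h2 : ρ a₁ t + δ ≤ c' t := g1 t
      linarith
    · rw [hsub]
      have h1 := (abs_lt.1 (hc t)).1
      have h2 : ρ a₂ t + δ ≤ c' t := g2 t
      linarith
    · rw [hsub]
      have h1 := (abs_lt.1 (hc t)).2
      have h2 : c' t ≤ ρ b₁ t - δ := g3 t
      linarith
    · rw [hsub]
      have h1 := (abs_lt.1 (hc t)).2
      have h2 : c' t ≤ ρ b₂ t - δ := g4 t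
      linarith
  · intro n x e hn he
    obtain ⟨δ, hδ, hδ2⟩ := SGK_min (ρ e) he
    have hn' : (0 : ℝ) < n := by exact_mod_cast hn
    obtain ⟨u, hu⟩ := hKD.dense ((1 / (n : ℝ)) • (ρ x - (1 / 2 : ℝ) • ρ e))
      (SGK_smul _ (SGK_sub (hKD.aff _) (SGK_smul _ (hKD.aff _)))) (δ / (2 * n)) (by positivity)
    have h1 : ∀ t, |(n : ℝ) * ρ u t - (ρ x t - 1 / 2 * ρ e t)| < δ / 2 := by
      intro t
      have h2 : |ρ u t - 1 / (n : ℝ) * (ρ x t - 1 / 2 * ρ e t)| < δ / (2 * n) := hu t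
      have h3 : (n : ℝ) * ρ u t - (ρ x t - 1 / 2 * ρ e t) =
          n * (ρ u t - 1 / (n : ℝ) * (ρ x t - 1 / 2 * ρ e t)) := by
        field_simp
      rw [h3, abs_mul, abs_of_pos hn']
      have h4 : (n : ℝ) * |ρ u t - 1 / (n : ℝ) * (ρ x t - 1 / 2 * ρ e t)| < n * (δ / (2 * n)) :=
        mul_lt_mul_of_pos_left h2 hn'
      have h5 : (n : ℝ) * (δ / (2 * n)) = δ / 2 := by
        field_simp
      rwa [h5] at h4
    refine ⟨u, fun t => ?_, fun t => ?_⟩
    · rw [hsub, hns]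
      have h2 := (abs_lt.1 (h1 t)).2
      have h3 := hδ2 t
      linarith
    · rw [hsub, hsub, hns]
      have h2 := (abs_lt.1 (h1 t)).1
      have h3 := hδ2 t
      linarith

end SGK

theorem SGK : SGK_stmt := by
  intro E _ _ _ K hK H _ ρ g hKD htf
  exact SGK_core hK H ρ g hKD htf

end Pool.Agent.PVH
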