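import Pool.Agent.helper72.PV.SpecH

/-!
# Project pv (MP_376aaf_an), block H, row STA: the invariant states of the system are the points of `K`
-/

set_option autoImplicit false

open Finset

namespace Pool.Agent.PVH

open Pool.Agent.PV Pool.Agent.CZ

private lemma STA_intR_one {Ω : Type} [TopologicalSpace Ω] : intR (1 : C(Ω, ℤ)) = 1 := by
  ext x
  simp [intR]

private lemma STA_intR_add {Ω : Type} [TopologicalSpace Ω] (f f' : C(Ω, ℤ)) :
    intR (f + f') = intR f + intR f' := by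
  ext x
  simp [intR]

private lemma STA_intR_comp {Ω : Type} [TopologicalSpace Ω] (s : Ω ≃ₜ Ω) (f : C(Ω, ℤ)) :
    (intR f).comp (s : C(Ω, Ω)) = intR (f.comp (s : C(Ω, Ω))) := rfl

theorem STA (hEXR : EXR_stmt) (hAFL : AFL_stmt) (hUNQ : UNQ_stmt) (hSPK : SPK_stmt)
    (hPTE : PTE_stmt) : STA_stmt := by
  intro E _ _ _ _ _ _ _ K H _ ρ g hKD Ω _ _ _ _ s Q hD
  have : CompactSpace K := isCompact_iff_compactSpace.1 hKD.compact
  let R : C(Ω, ℤ) →+ C(K, ℝ) := ρ.comp Q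
  have hR : ∀ f : C(Ω, ℤ), (∀ x, 0 ≤ f x) → ∀ t, 0 ≤ R f t := by
    intro f hf t
    show 0 ≤ ρ (Q f) t
    rcases hD.nonneg f hf with h | h
    · rw [h, map_zero]
      exact le_rfl
    · exact (h t).le
  obtain ⟨Φ, hΦ1, hΦ2⟩ := hEXR Ω K R hR
  have hone : Φ 1 = 1 := by
    have h1 := hΦ1 1
    rw [STA_intR_one] at h1
    rw [h1]
    show ρ (Q 1) = 1
    rw [hD.one, hKD.one]
  let T : K → C(Ω, ℝ) →ₗ[ℝ] ℝ := fun t =>
    { toFun := fun f => Φ f t
      map_add' := fun f f' => by rw [map_add]; rfl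
      map_smul' := fun c f => by rw [map_smul]; rfl }
  have hTv : ∀ (f : C(Ω, ℤ)) (t : K), T t (intR f) = ρ (Q f) t := by
    intro f t
    show Φ (intR f) t = ρ (Q f) t
    rw [hΦ1]
    rfl
  have hTpos : ∀ (t : K) (f : C(Ω, ℝ)), (∀ x, 0 ≤ f x) → 0 ≤ T t f := fun t f hf => hΦ2 f hf t
  have hTone : ∀ t : K, T t 1 = 1 := by
    intro t
    show Φ 1 t = 1
    rw [hone]
    rfl
  have hcob : ∀ f : C(Ω, ℤ), Q (f.comp (s : C(Ω, Ω))) = Q f := by
    intro f
    have h1 : Q (f.comp (s : C(Ω, Ω)) - f) = 0 := (hD.cob _).2 ⟨f, fun x => rfl⟩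
    rw [map_sub] at h1
    exact sub_eq_zero.1 h1
  refine ⟨T, ?_, hTv, ?_, ?_, ?_⟩
  · intro t
    refine ⟨hTpos t, hTone t, ?_⟩
    let S : C(Ω, ℝ) →ₗ[ℝ] ℝ :=
      { toFun := fun f => T t (f.comp (s : C(Ω, Ω)))
        map_add' := fun f f' => by
          rw [ContinuousMap.add_comp, map_add]
        map_smul' := fun c f => by
          rw [ContinuousMap.smul_comp, map_smul]
          rfl }
    have h1 : S = T t := by
      refine hUNQ Ω S (T t) ?_ (hTpos t) ?_ (hTone t) ?_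
      · intro f hf
        exact hTpos t _ fun x => hf (s x)
      · show T t ((1 : C(Ω, ℝ)).comp (s : C(Ω, Ω))) = 1
        rw [ContinuousMap.one_comp, hTone]
      · intro f
        show T t ((intR f).comp (s : C(Ω, Ω))) = T t (intR f)
        rw [STA_intR_comp, hTv, hTv, hcob]
    intro f
    exact congrArg (fun L : C(Ω, ℝ) →ₗ[ℝ] ℝ => L f) h1
  · intro f
    exact ⟨Φ f, hAFL Ω E K hKD.compact R (fun f => hKD.aff (Q f)) Φ hΦ1 hΦ2 f, fun t => rfl⟩
  · intro t t' h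
    refine hSPK E K H ρ g hKD t t' fun x => ?_
    obtain ⟨f, rfl⟩ := hD.surj x
    rw [← hTv, ← hTv, h]
  · intro φ hφ
    let ψ : C(Ω, ℤ) →+ ℝ := AddMonoidHom.mk' (fun f => φ (intR f)) (fun f f' => by
      rw [STA_intR_add, map_add])
    have hker : Q.ker ≤ ψ.ker := by
      intro f hf
      rw [AddMonoidHom.mem_ker] at hf ⊢
      obtain ⟨e, he⟩ := (hD.cob f).1 hf
      have h1 : intR f = (intR e).comp (s : C(Ω, Ω)) - intR e := by
        ext x
        show ((f x : ℤ) : ℝ) = ((e (s x) : ℤ) : ℝ) - ((e x : ℤ) : ℝ)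
        rw [he x]
        push_cast
        rfl
      show φ (intR f) = 0
      rw [h1, map_sub, hφ.inv, sub_self]
    let σ : H →+ ℝ := Q.liftOfSurjective hD.surj ⟨ψ, hker⟩
    have hσ : ∀ f : C(Ω, ℤ), σ (Q f) = φ (intR f) := fun f =>
      AddMonoidHom.liftOfRightInverse_comp_apply Q _ _ ⟨ψ, hker⟩ f
    obtain ⟨t, ht⟩ := hPTE E K H ρ g hKD σ (by rw [← hD.one, hσ, STA_intR_one, hφ.one])
      (fun x hx => by
        obtain ⟨f, hf, rfl⟩ := hD.pos x hx
        rw [hσ]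
        refine hφ.nonneg _ fun y => ?_
        show (0 : ℝ) ≤ ((f y : ℤ) : ℝ)
        exact_mod_cast hf y)
    refine ⟨t, hUNQ Ω (T t) φ (hTpos t) hφ.nonneg (hTone t) hφ.one fun f => ?_⟩
    rw [hTv, ← ht, hσ]

end Pool.Agent.PVH
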