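import Pool.Agent.helper77.PV.SpecC

/-!
# Project pv (MP_376aaf_an), row HOL: holonomy (assembly)
-/

set_option autoImplicit false

namespace Pool.Agent.PV

open Pool.Agent.CZ

theorem HOL (hHOE : HOE_stmt) (hHOA : HOA_stmt) (hHOF : HOF_stmt) (hHOG : HOG_stmt) : HOL_stmt := by
  intro B _ _ _
  obtain ⟨de, hde⟩ := hHOE B
  refine ⟨de, ?_, ?_, hHOF B de hde, hHOG B de hde⟩
  · intro ι _ _ E hE V V' g h hg
    exact hde ι E hE V V' g h hg
  · intro ι _ _ E hE
    exact (hHOA B ι E hE).1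

end Pool.Agent.PV
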