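import Pool.Agent.helper77.PV.SpecK

/-!
# Project pv (MP_376aaf_an), row KSG: a group with a surjection to `ℤ` splits
-/

set_option autoImplicit false

namespace Pool.Agent.PV

open Pool.Agent.CZ Pool.Agent.PVH

theorem KSG : KSG_stmt := by
  intro G _ δ u hu
  refine ⟨↥δ.ker, inferInstance, ⟨?_⟩⟩
  exact
    { toFun := fun x => (δ x, ⟨x - δ x • u, by
        rw [AddMonoidHom.mem_ker, map_sub, map_zsmul, hu, smul_eq_mul, mul_one, sub_self]⟩)
      invFun := fun q => q.2.1 + q.1 • u
      left_inv := fun x => by
        show x - δ x • u + δ x • u = x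
        rw [sub_add_cancel]
      right_inv := fun q => by
        have h1 : δ (q.2.1 + q.1 • u) = q.1 := by
          rw [map_add, (AddMonoidHom.mem_ker).1 q.2.2, zero_add, map_zsmul, hu, smul_eq_mul, mul_one]
        refine Prod.ext h1 (Subtype.ext ?_)
        show q.2.1 + q.1 • u - δ (q.2.1 + q.1 • u) • u = q.2.1
        rw [h1, add_sub_cancel_right]
      map_add' := fun x y => by
        refine Prod.ext (map_add δ x y) (Subtype.ext ?_)
        show x + y - δ (x + y) • u = (x - δ x • u) + (y - δ y • u)
        rw [map_add, add_smul]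
        abel }

end Pool.Agent.PV
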