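import Pool.Agent.helper77.PV.SpecC2

/-!
# Project pv (MP_376aaf_an), row RNM: renorming
-/

set_option autoImplicit false

open scoped Matrix Topology
open Filter

namespace Pool.Agent.PV

open Pool.Agent.CZ

/-- left multiplication as a homomorphism to the algebra of bounded operators -/
private noncomputable def RNM_L (B : Type) [NormedRing B] [NormedAlgebra ℂ B] : B →ₐ[ℂ] (B →L[ℂ] B) :=
  AlgHom.ofLinearMap (ContinuousLinearMap.mul ℂ B).toLinearMap
    (by
      ext x
      show (1 : B) * x = x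
      rw [one_mul])
    (by
      intro a b
      ext x
      show a * b * x = a * (b * x)
      rw [mul_assoc])

private lemma RNM_apply (B : Type) [NormedRing B] [NormedAlgebra ℂ B] (b x : B) : RNM_L B b x = b * x := rfl

private lemma RNM_inj (B : Type) [NormedRing B] [NormedAlgebra ℂ B] : Function.Injective (RNM_L B) := by
  intro a b h
  have h1 : RNM_L B a 1 = RNM_L B b 1 := by rw [h]
  rwa [RNM_apply, RNM_apply, mul_one, mul_one] at h1

private lemma RNM_cont (B : Type) [NormedRing B] [NormedAlgebra ℂ B] : Continuous (RNM_L B) :=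
  (ContinuousLinearMap.mul ℂ B).continuous

theorem RNM : RNM_stmt := by
  intro B _ _ _
  let f : B ≃ₐ[ℂ] ↥(RNM_L B).range := AlgEquiv.ofInjective (RNM_L B) (RNM_inj B)
  have hf : Continuous f := Continuous.subtype_mk (RNM_cont B) _
  have hb : ∀ y : ↥(RNM_L B).range, ‖f.symm y‖ ≤ ‖(1 : B)‖ * ‖y‖ := by
    intro y
    obtain ⟨b, rfl⟩ := f.surjective y
    rw [AlgEquiv.symm_apply_apply]
    have h1 : ‖f b‖ = ‖RNM_L B b‖ := rfl
    have h2 : ‖RNM_L B b 1‖ ≤ ‖RNM_L B b‖ * ‖(1 : B)‖ := (RNM_L B b).le_opNorm 1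
    rw [RNM_apply, mul_one] at h2
    rw [h1, mul_comm]
    exact h2
  have hfs : Continuous f.symm := AddMonoidHomClass.continuous_of_bound f.symm ‖(1 : B)‖ hb
  have hb' : ∀ b : B, ‖f b‖ ≤ 1 * ‖b‖ := by
    intro b
    rw [one_mul]
    exact ContinuousLinearMap.opNorm_mul_apply_le ℂ B b
  let U : B ≃ᵤ ↥(RNM_L B).range :=
    { toEquiv := f.toEquiv
      uniformContinuous_toFun := AddMonoidHomClass.uniformContinuous_of_bound f 1 hb'
      uniformContinuous_invFun := AddMonoidHomClass.uniformContinuous_of_bound f.symm _ hb }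
  have hc : CompleteSpace ↥(RNM_L B).range := U.completeSpace_iff.1 inferInstance
  refine ⟨↥(RNM_L B).range, inferInstance, inferInstance, hc, f, hf, hfs, ?_⟩
  show ‖(1 : B →L[ℂ] B)‖ ≤ 1
  exact ContinuousLinearMap.norm_id_le

end Pool.Agent.PV
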